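import Mathlib
import Pool.Agent.H759R2.Kad.Props
import Pool.Agent.H759R2.Kad.Props2
import Pool.Agent.H99R2.Kad.Col

/-! Tasks 02 and 03 of the Kadison project for homomorphisms: column and row bounds (helper57). -/

open scoped ComplexOrder InnerProductSpace ComplexConjugate
open Finset

noncomputable section

namespace H759R2.Kad

universe u v

open Col

/-- The little Grothendieck inequality for a family `g_i a_k`. -/
theorem gt_dix (h : St_gt.{u, v}) (B : Type u) [CStarAlgebra B] [PartialOrder B]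
    [StarOrderedRing B] (K : Type v) [NormedAddCommGroup K] [InnerProductSpace ℂ K]
    [CompleteSpace K] (T : B →ₗ[ℂ] K) (M : ℝ) (hM : 0 ≤ M) (hT : ∀ b, ‖T b‖ ≤ M * ‖b‖)
    (τ : B →ₗ[ℂ] ℂ) (hτ : IsTracialState τ) (κ : Type) [Fintype κ] (a : κ → B) (ε : ℝ)
    (N : ℕ) (g : Fin (N + 1) → unitary B)
    (hg : ‖((N + 1 : ℂ))⁻¹ • ∑ k, (g k : B) * (∑ k, a k * star (a k)) * star (g k : B) -
      algebraMap ℂ B (τ (∑ k, a k * star (a k)))‖ ≤ ε) :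
    ∑ ik : Fin (N + 1) × κ, ‖T ((g ik.1 : B) * a ik.2)‖ ^ 2 ≤
      3 * M ^ 2 * (((N : ℝ) + 1) * (2 * ‖∑ k, star (a k) * a k‖ + ε)) := by
  set q : B := ∑ k, star (a k) * a k with hq
  set p : B := ∑ k, a k * star (a k) with hp
  set s : ℝ := ‖q‖ with hs
  have hq0 : 0 ≤ q := Finset.sum_nonneg fun k _ => star_mul_self_nonneg _
  have hN : (0 : ℝ) < (N : ℝ) + 1 := by positivity
  have hτp : τ p = τ q := by
    rw [hp, hq, map_sum, map_sum]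
    exact Finset.sum_congr rfl fun k _ => hτ.comm _ _
  have hnorm_avg : ‖∑ i, (g i : B) * p * star (g i : B)‖ ≤ ((N : ℝ) + 1) * (s + ε) := by
    have h1 : ‖((N + 1 : ℂ))⁻¹ • ∑ k, (g k : B) * p * star (g k : B)‖ ≤ s + ε := by
      have h2 : ‖algebraMap ℂ B (τ p)‖ ≤ s := by
        rw [norm_algebraMap, hτp]
        calc ‖τ q‖ * ‖(1 : B)‖ ≤ ‖q‖ * 1 := by
              gcongr
              · exact state_bound τ hτ q hq0
              · exact norm_one_le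
          _ = s := by rw [mul_one]
      calc ‖((N + 1 : ℂ))⁻¹ • ∑ k, (g k : B) * p * star (g k : B)‖
          = ‖(((N + 1 : ℂ))⁻¹ • ∑ k, (g k : B) * p * star (g k : B) - algebraMap ℂ B (τ p)) +
              algebraMap ℂ B (τ p)‖ := by rw [sub_add_cancel]
        _ ≤ ‖((N + 1 : ℂ))⁻¹ • ∑ k, (g k : B) * p * star (g k : B) - algebraMap ℂ B (τ p)‖ +
              ‖algebraMap ℂ B (τ p)‖ := norm_add_le _ _
        _ ≤ s + ε := by linarith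
    rw [norm_smul, norm_inv] at h1
    have h3 : ‖((N : ℂ) + 1)‖ = (N : ℝ) + 1 := by
      have : ((N : ℂ) + 1) = ((N + 1 : ℕ) : ℂ) := by push_cast; ring
      rw [this, Complex.norm_natCast]
      push_cast; ring
    rw [h3, inv_mul_le_iff₀ hN] at h1
    exact h1
  have hgt := h B K T M hM hT (Fin (N + 1) × κ) (fun ik => (g ik.1 : B) * a ik.2)
  have e1 : ∑ ik : Fin (N + 1) × κ, star ((g ik.1 : B) * a ik.2) * ((g ik.1 : B) * a ik.2) =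
      ((N : ℂ) + 1) • q := by
    rw [Fintype.sum_prod_type]
    have : ∀ i : Fin (N + 1), ∑ k, star ((g i : B) * a k) * ((g i : B) * a k) = q := by
      intro i
      rw [hq]
      refine Finset.sum_congr rfl fun k _ => ?_
      rw [star_mul, mul_assoc, ← mul_assoc (star (g i : B)), Unitary.coe_star_mul_self, one_mul]
    simp only [this]
    rw [Finset.sum_const, Finset.card_univ, Fintype.card_fin, ← Nat.cast_smul_eq_nsmul ℂ]
    push_cast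
    rfl
  have e2 : ∑ ik : Fin (N + 1) × κ, ((g ik.1 : B) * a ik.2) * star ((g ik.1 : B) * a ik.2) =
      ∑ i, (g i : B) * p * star (g i : B) := by
    rw [Fintype.sum_prod_type]
    refine Finset.sum_congr rfl fun i _ => ?_
    rw [hp, Finset.mul_sum, Finset.sum_mul]
    refine Finset.sum_congr rfl fun k _ => ?_
    rw [star_mul]
    simp only [mul_assoc]
  have hn1 : ‖((N : ℂ) + 1) • q‖ = ((N : ℝ) + 1) * s := by
    rw [norm_smul]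
    have : ((N : ℂ) + 1) = ((N + 1 : ℕ) : ℂ) := by push_cast; ring
    rw [this, Complex.norm_natCast]
    push_cast; ring
  rw [e1, e2, hn1] at hgt
  refine hgt.trans ?_
  have : ((N : ℝ) + 1) * s + ‖∑ i, (g i : B) * p * star (g i : B)‖ ≤
      ((N : ℝ) + 1) * (2 * s + ε) := by linarith
  gcongr

section hom

variable {B : Type u} [CStarAlgebra B] {K : Type v} [NormedAddCommGroup K]
    [InnerProductSpace ℂ K] {w : B →ₗ[ℂ] (K →L[ℂ] K)}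

/-- `x = w(g*) w(g) x` for a unitary `g`. -/
theorem IsHom.star_mul_cancel (hw : IsHom w) (g : unitary B) (b : B) :
    w b = w (star (g : B)) * w ((g : B) * b) := by
  rw [← hw.mul, ← mul_assoc, Unitary.coe_star_mul_self, one_mul]

end hom

theorem dsum_const (N : ℕ) {κ : Type} [Fintype κ] (f : κ → ℝ) :
    ((N : ℝ) + 1) * ∑ k, f k = ∑ ik : Fin (N + 1) × κ, f ik.2 := by
  rw [Fintype.sum_prod_type]
  simp only
  rw [Finset.sum_const, Finset.card_univ, Fintype.card_fin, nsmul_eq_mul]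
  push_cast; ring

/-- Column bound for a homomorphism, up to `ε`. -/
theorem col2_aux (h : St_gt.{u, v}) (B : Type u) [CStarAlgebra B] [PartialOrder B]
    [StarOrderedRing B] (K : Type v) [NormedAddCommGroup K] [InnerProductSpace ℂ K]
    [CompleteSpace K] (w : B →ₗ[ℂ] (K →L[ℂ] K)) (τ : B →ₗ[ℂ] ℂ)
    (hw : IsHom w) (hτ : IsTracialState τ) (c γ : ℝ) (hc : 0 ≤ c) (hγ : 0 ≤ γ)
    (hdix : HasDixFor τ w c) (hwb : ∀ b, ‖w b‖ ≤ γ * ‖b‖) (κ : Type) [Fintype κ] (a : κ → B)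
    (ζ : K) (ε : ℝ) (hε : 0 < ε) :
    ∑ k, ‖w (a k) ζ‖ ^ 2 ≤
      c ^ 2 * (3 * (γ * ‖ζ‖) ^ 2 * (2 * ‖∑ k, star (a k) * a k‖ + ε)) := by
  have hpsa : IsSelfAdjoint (∑ k, a k * star (a k)) :=
    isSelfAdjoint_sum _ fun k _ => IsSelfAdjoint.mul_star_self (a k)
  obtain ⟨N, g, hgc, hg⟩ := hdix _ hpsa ε hε
  have hN : (0 : ℝ) < (N : ℝ) + 1 := by positivity
  have hgt := gt_dix h B K ((ContinuousLinearMap.apply ℂ K ζ).toLinearMap.comp w) (γ * ‖ζ‖)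
    (by positivity) (fun b => by
      simp only [LinearMap.comp_apply, ContinuousLinearMap.coe_coe, ContinuousLinearMap.apply_apply]
      calc ‖w b ζ‖ ≤ ‖w b‖ * ‖ζ‖ := (w b).le_opNorm ζ
        _ ≤ γ * ‖b‖ * ‖ζ‖ := by gcongr; exact hwb b
        _ = γ * ‖ζ‖ * ‖b‖ := by ring) τ hτ κ a ε N g hg
  simp only [LinearMap.comp_apply, ContinuousLinearMap.coe_coe,
    ContinuousLinearMap.apply_apply] at hgt
  have hle : ∀ ik : Fin (N + 1) × κ, ‖w (a ik.2) ζ‖ ^ 2 ≤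
      c ^ 2 * ‖w ((g ik.1 : B) * a ik.2) ζ‖ ^ 2 := by
    intro ik
    have h1 : ‖w (a ik.2) ζ‖ ≤ c * ‖w ((g ik.1 : B) * a ik.2) ζ‖ := by
      calc ‖w (a ik.2) ζ‖ = ‖w (star (g ik.1 : B)) (w ((g ik.1 : B) * a ik.2) ζ)‖ := by
            conv_lhs => rw [hw.star_mul_cancel (g ik.1) (a ik.2)]
            rfl
        _ ≤ ‖w (star (g ik.1 : B))‖ * ‖w ((g ik.1 : B) * a ik.2) ζ‖ :=
            ContinuousLinearMap.le_opNorm _ _
        _ ≤ c * ‖w ((g ik.1 : B) * a ik.2) ζ‖ := by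
            gcongr
            exact (hgc ik.1).2
    calc ‖w (a ik.2) ζ‖ ^ 2 ≤ (c * ‖w ((g ik.1 : B) * a ik.2) ζ‖) ^ 2 := by gcongr
      _ = _ := by ring
  have hfin : ((N : ℝ) + 1) * ∑ k, ‖w (a k) ζ‖ ^ 2 ≤ ((N : ℝ) + 1) *
      (c ^ 2 * (3 * (γ * ‖ζ‖) ^ 2 * (2 * ‖∑ k, star (a k) * a k‖ + ε))) := by
    rw [dsum_const N (fun k => ‖w (a k) ζ‖ ^ 2)]
    calc ∑ ik : Fin (N + 1) × κ, ‖w (a ik.2) ζ‖ ^ 2
        ≤ ∑ ik : Fin (N + 1) × κ, c ^ 2 * ‖w ((g ik.1 : B) * a ik.2) ζ‖ ^ 2 :=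
          Finset.sum_le_sum fun ik _ => hle ik
      _ = c ^ 2 * ∑ ik : Fin (N + 1) × κ, ‖w ((g ik.1 : B) * a ik.2) ζ‖ ^ 2 := by
          rw [Finset.mul_sum]
      _ ≤ c ^ 2 * (3 * (γ * ‖ζ‖) ^ 2 *
            (((N : ℝ) + 1) * (2 * ‖∑ k, star (a k) * a k‖ + ε))) := by gcongr
      _ = _ := by ring
  exact le_of_mul_le_mul_left hfin hN

/-- letting `ε` tend to zero -/
theorem le_of_forall_eps {x y z : ℝ} (hz : 0 ≤ z) (h : ∀ ε : ℝ, 0 < ε → x ≤ y + z * ε) :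
    x ≤ y := by
  refine le_of_forall_pos_le_add fun δ hδ => ?_
  have hε : 0 < δ / (z + 1) := by positivity
  refine (h _ hε).trans ?_
  have h1 : z * (δ / (z + 1)) ≤ δ := by
    have h2 : 0 < z + 1 := by positivity
    rw [mul_div_assoc', div_le_iff₀ h2]
    nlinarith
  linarith

/-- The row bound from the column bound of the adjoint map. -/
theorem row_of_col {B : Type u} [CStarAlgebra B] {K : Type v} [NormedAddCommGroup K]
    [InnerProductSpace ℂ K] [CompleteSpace K] (f e : B → (K →L[ℂ] K))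
    (hfe : ∀ b, star (f b) = e (star b)) (C : ℝ) (hC : 0 ≤ C) (κ : Type) [Fintype κ] (a : κ → B)
    (hcol : ∀ ζ : K, ∑ k, ‖e (star (a k)) ζ‖ ^ 2 ≤ C * ‖ζ‖ ^ 2) (ξ : κ → K) :
    ‖∑ k, f (a k) (ξ k)‖ ^ 2 ≤ C * ∑ k, ‖ξ k‖ ^ 2 := by
  set y : K := ∑ k, f (a k) (ξ k) with hy
  have h1 : ‖y‖ ^ 2 ≤ ∑ k, ‖e (star (a k)) y‖ * ‖ξ k‖ := by
    have h2 : ‖y‖ ^ 2 = ∑ k, (⟪y, f (a k) (ξ k)⟫_ℂ).re := by
      have h3 : ‖y‖ ^ 2 = (⟪y, y⟫_ℂ).re := by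
        rw [← inner_self_eq_norm_sq (𝕜 := ℂ)]
        rfl
      have h4 : ⟪y, y⟫_ℂ = ∑ k, ⟪y, f (a k) (ξ k)⟫_ℂ := by
        rw [← inner_sum, ← hy]
      rw [h3, h4, Complex.re_sum]
    rw [h2]
    refine Finset.sum_le_sum fun k _ => ?_
    have h5 : ⟪y, f (a k) (ξ k)⟫_ℂ = ⟪e (star (a k)) y, ξ k⟫_ℂ := by
      rw [← hfe, ContinuousLinearMap.star_eq_adjoint, ContinuousLinearMap.adjoint_inner_left]
    rw [h5]
    calc (⟪e (star (a k)) y, ξ k⟫_ℂ).re ≤ ‖⟪e (star (a k)) y, ξ k⟫_ℂ‖ := Complex.re_le_norm _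
      _ ≤ ‖e (star (a k)) y‖ * ‖ξ k‖ := norm_inner_le_norm _ _
  have h6 : (∑ k, ‖e (star (a k)) y‖ * ‖ξ k‖) ^ 2 ≤
      (∑ k, ‖e (star (a k)) y‖ ^ 2) * ∑ k, ‖ξ k‖ ^ 2 := Finset.sum_mul_sq_le_sq_mul_sq _ _ _
  have hξ : 0 ≤ ∑ k, ‖ξ k‖ ^ 2 := Finset.sum_nonneg fun k _ => by positivity
  have h8 : ‖y‖ ^ 2 * ‖y‖ ^ 2 ≤ (C * ∑ k, ‖ξ k‖ ^ 2) * ‖y‖ ^ 2 := by
    calc ‖y‖ ^ 2 * ‖y‖ ^ 2 = (‖y‖ ^ 2) ^ 2 := by ring
      _ ≤ (∑ k, ‖e (star (a k)) y‖ * ‖ξ k‖) ^ 2 := by gcongr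
      _ ≤ (∑ k, ‖e (star (a k)) y‖ ^ 2) * ∑ k, ‖ξ k‖ ^ 2 := h6
      _ ≤ (C * ‖y‖ ^ 2) * ∑ k, ‖ξ k‖ ^ 2 := by gcongr; exact hcol y
      _ = _ := by ring
  rcases (sq_nonneg ‖y‖).eq_or_lt with h9 | h9
  · rw [← h9]
    positivity
  · exact le_of_mul_le_mul_right h8 h9

/-- The adjoint map `b ↦ w(b*)*`. -/
def vmap {B : Type u} [CStarAlgebra B] {K : Type v} [NormedAddCommGroup K]
    [InnerProductSpace ℂ K] [CompleteSpace K] (w : B →ₗ[ℂ] (K →L[ℂ] K)) :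
    B →ₗ[ℂ] (K →L[ℂ] K) where
  toFun b := star (w (star b))
  map_add' a b := by
    simp only [star_add, map_add]
  map_smul' c b := by
    simp only [star_smul, map_smul, star_star, RingHom.id_apply, RCLike.star_def,
      RCLike.conj_conj]

section vm

variable {B : Type u} [CStarAlgebra B] {K : Type v} [NormedAddCommGroup K]
    [InnerProductSpace ℂ K] [CompleteSpace K] {w : B →ₗ[ℂ] (K →L[ℂ] K)}

theorem vmap_apply (w : B →ₗ[ℂ] (K →L[ℂ] K)) (b : B) : vmap w b = star (w (star b)) := rfl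

theorem norm_vmap (w : B →ₗ[ℂ] (K →L[ℂ] K)) (b : B) : ‖vmap w b‖ = ‖w (star b)‖ := by
  rw [vmap_apply, norm_star]

theorem dmap_apply (w : B →ₗ[ℂ] (K →L[ℂ] K)) (b : B) : dmap w b = vmap w b - w b := rfl

theorem IsHom.vmap (hw : IsHom w) : IsHom (vmap w) where
  mul a b := by
    rw [vmap_apply, vmap_apply, vmap_apply, star_mul, hw.mul, star_mul]
  one := by
    rw [vmap_apply, star_one, hw.one, star_one]

theorem vmap_star (w : B →ₗ[ℂ] (K →L[ℂ] K)) (b : B) : star (vmap w b) = w (star b) := by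
  rw [vmap_apply, star_star]

theorem star_w (w : B →ₗ[ℂ] (K →L[ℂ] K)) (b : B) : star (w b) = vmap w (star b) := by
  rw [vmap_apply, star_star]

theorem star_dmap (w : B →ₗ[ℂ] (K →L[ℂ] K)) (b : B) : star (dmap w b) = - dmap w (star b) := by
  rw [dmap_apply, dmap_apply, star_sub, vmap_star, star_w]
  abel

theorem dmap_mul (hw : IsHom w) (a b : B) :
    dmap w (a * b) = vmap w a * dmap w b + dmap w a * w b := by
  rw [dmap_apply, dmap_apply, dmap_apply, hw.mul, hw.vmap.mul, mul_sub, sub_mul]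
  abel

end vm

theorem prove2_col (h : St_gt.{u, v}) : T2_col.{u, v} := by
  intro B _ _ _ K _ _ _ w τ hw hτ c γ hc hγ hdix hwb κ _ a
  have key : ∀ (w : B →ₗ[ℂ] (K →L[ℂ] K)), IsHom w → HasDixFor τ w c → (∀ b, ‖w b‖ ≤ γ * ‖b‖) →
      ∀ (a : κ → B) (ζ : K), ∑ k, ‖w (a k) ζ‖ ^ 2 ≤
        6 * c ^ 2 * γ ^ 2 * ‖∑ k, star (a k) * a k‖ * ‖ζ‖ ^ 2 := by
    intro w hw hdix hwb a ζ
    refine le_of_forall_eps (z := c ^ 2 * (3 * (γ * ‖ζ‖) ^ 2)) (by positivity) fun ε hε => ?_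
    refine (col2_aux h B K w τ hw hτ c γ hc hγ hdix hwb κ a ζ ε hε).trans (le_of_eq ?_)
    ring
  refine ⟨key w hw hdix hwb a, fun ξ => ?_⟩
  have hv : ∀ b, ‖vmap w b‖ ≤ γ * ‖b‖ := by
    intro b
    rw [norm_vmap, ← norm_star b]
    exact hwb _
  have hdv : HasDixFor τ (vmap w) c := by
    intro a ha ε hε
    obtain ⟨N, g, hg1, hg2⟩ := hdix a ha ε hε
    refine ⟨N, g, fun k => ?_, hg2⟩
    rw [norm_vmap, norm_vmap, star_star]
    exact ⟨(hg1 k).2, (hg1 k).1⟩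
  refine row_of_col (fun b => w b) (fun b => vmap w b) (fun b => star_w w b) _ (by positivity) κ a
    (fun ζ => ?_) ξ
  have := key (vmap w) hw.vmap hdv hv (fun k => star (a k)) ζ
  simpa only [star_star] using this

/-- Column bound for the defect, up to `e`. -/
theorem ecol_aux (h : St_gt.{u, v}) (h2 : T2_col.{u, v}) (B : Type u) [CStarAlgebra B]
    [PartialOrder B] [StarOrderedRing B] (K : Type v) [NormedAddCommGroup K]
    [InnerProductSpace ℂ K] [CompleteSpace K] (w : B →ₗ[ℂ] (K →L[ℂ] K)) (τ : B →ₗ[ℂ] ℂ)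
    (hw : IsHom w) (hτ : IsTracialState τ) (hdix : HasDixmier τ) (c ε : ℝ) (hc : 0 ≤ c)
    (hε : 0 ≤ ε) (hwb : ∀ b, ‖w b‖ ≤ c * ‖b‖) (hEb : ∀ b, ‖dmap w b‖ ≤ ε * ‖b‖) (κ : Type)
    [Fintype κ] (a : κ → B) (ζ : K) (e : ℝ) (he : 0 < e) :
    ∑ k, ‖dmap w (a k) ζ‖ ^ 2 ≤
      2 * c ^ 2 * (3 * (ε * ‖ζ‖) ^ 2 * (2 * ‖∑ k, star (a k) * a k‖ + e)) +
      2 * c ^ 2 * ε ^ 2 * (6 * c ^ 2 * c ^ 2 * ‖∑ k, star (a k) * a k‖ * ‖ζ‖ ^ 2) := by
  have hpsa : IsSelfAdjoint (∑ k, a k * star (a k)) :=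
    isSelfAdjoint_sum _ fun k _ => IsSelfAdjoint.mul_star_self (a k)
  have hu : ∀ g : unitary B, ‖w (g : B)‖ ≤ c := fun g =>
    (hwb _).trans (by nlinarith [norm_unitary_le g])
  have hdf : HasDixFor τ w c := by
    intro a ha ε hε
    obtain ⟨N, g, hg⟩ := hdix a ha ε hε
    refine ⟨N, g, fun k => ⟨hu _, ?_⟩, hg⟩
    have := hu (star (g k))
    rwa [Unitary.coe_star] at this
  obtain ⟨N, g, hg⟩ := hdix _ hpsa e he
  have hN : (0 : ℝ) < (N : ℝ) + 1 := by positivity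
  have hgt := gt_dix h B K ((ContinuousLinearMap.apply ℂ K ζ).toLinearMap.comp (dmap w))
    (ε * ‖ζ‖) (by positivity) (fun b => by
      simp only [LinearMap.comp_apply, ContinuousLinearMap.coe_coe, ContinuousLinearMap.apply_apply]
      calc ‖dmap w b ζ‖ ≤ ‖dmap w b‖ * ‖ζ‖ := (dmap w b).le_opNorm ζ
        _ ≤ ε * ‖b‖ * ‖ζ‖ := by gcongr; exact hEb b
        _ = ε * ‖ζ‖ * ‖b‖ := by ring) τ hτ κ a e N g hg
  simp only [LinearMap.comp_apply, ContinuousLinearMap.coe_coe,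
    ContinuousLinearMap.apply_apply] at hgt
  have hcol := (h2 B K w τ hw hτ c c hc hc hdf hwb κ a).1 ζ
  have hle : ∀ ik : Fin (N + 1) × κ, ‖dmap w (a ik.2) ζ‖ ^ 2 ≤
      2 * c ^ 2 * ‖dmap w ((g ik.1 : B) * a ik.2) ζ‖ ^ 2 +
        2 * c ^ 2 * ε ^ 2 * ‖w (a ik.2) ζ‖ ^ 2 := by
    intro ik
    have e1 : dmap w (a ik.2) ζ = vmap w (star (g ik.1 : B))
        (dmap w ((g ik.1 : B) * a ik.2) ζ - dmap w (g ik.1 : B) (w (a ik.2) ζ)) := by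
      have e2 : dmap w ((g ik.1 : B) * a ik.2) ζ - dmap w (g ik.1 : B) (w (a ik.2) ζ) =
          vmap w (g ik.1 : B) (dmap w (a ik.2) ζ) := by
        rw [dmap_mul hw]
        simp only [add_apply, mul_apply_eq_comp]
        abel
      have e3 : vmap w (star (g ik.1 : B)) * vmap w (g ik.1 : B) = 1 := by
        rw [← hw.vmap.mul, Unitary.coe_star_mul_self, hw.vmap.one]
      rw [e2, ← mul_apply_eq_comp, e3]
      rfl
    have h1 : ‖dmap w (a ik.2) ζ‖ ≤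
        c * (‖dmap w ((g ik.1 : B) * a ik.2) ζ‖ + ε * ‖w (a ik.2) ζ‖) := by
      rw [e1]
      calc ‖vmap w (star (g ik.1 : B))
            (dmap w ((g ik.1 : B) * a ik.2) ζ - dmap w (g ik.1 : B) (w (a ik.2) ζ))‖
          ≤ ‖vmap w (star (g ik.1 : B))‖ *
            ‖dmap w ((g ik.1 : B) * a ik.2) ζ - dmap w (g ik.1 : B) (w (a ik.2) ζ)‖ :=
            ContinuousLinearMap.le_opNorm _ _
        _ ≤ c * (‖dmap w ((g ik.1 : B) * a ik.2) ζ‖ + ε * ‖w (a ik.2) ζ‖) := by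
            rw [norm_vmap, star_star]
            gcongr
            · exact hu _
            · refine (norm_sub_le _ _).trans ?_
              gcongr
              calc ‖dmap w (g ik.1 : B) (w (a ik.2) ζ)‖
                  ≤ ‖dmap w (g ik.1 : B)‖ * ‖w (a ik.2) ζ‖ := ContinuousLinearMap.le_opNorm _ _
                _ ≤ ε * ‖w (a ik.2) ζ‖ := by
                    gcongr
                    exact (hEb _).trans (by nlinarith [norm_unitary_le (g ik.1)])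
    calc ‖dmap w (a ik.2) ζ‖ ^ 2
        ≤ (c * (‖dmap w ((g ik.1 : B) * a ik.2) ζ‖ + ε * ‖w (a ik.2) ζ‖)) ^ 2 := by gcongr
      _ = c ^ 2 * (‖dmap w ((g ik.1 : B) * a ik.2) ζ‖ + ε * ‖w (a ik.2) ζ‖) ^ 2 := by ring
      _ ≤ c ^ 2 * (2 * ‖dmap w ((g ik.1 : B) * a ik.2) ζ‖ ^ 2 +
            2 * (ε * ‖w (a ik.2) ζ‖) ^ 2) := by
          gcongr
          nlinarith [sq_nonneg (‖dmap w ((g ik.1 : B) * a ik.2) ζ‖ - ε * ‖w (a ik.2) ζ‖)]
      _ = _ := by ring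
  have hfin : ((N : ℝ) + 1) * ∑ k, ‖dmap w (a k) ζ‖ ^ 2 ≤ ((N : ℝ) + 1) *
      (2 * c ^ 2 * (3 * (ε * ‖ζ‖) ^ 2 * (2 * ‖∑ k, star (a k) * a k‖ + e)) +
      2 * c ^ 2 * ε ^ 2 * (6 * c ^ 2 * c ^ 2 * ‖∑ k, star (a k) * a k‖ * ‖ζ‖ ^ 2)) := by
    rw [dsum_const N (fun k => ‖dmap w (a k) ζ‖ ^ 2)]
    calc ∑ ik : Fin (N + 1) × κ, ‖dmap w (a ik.2) ζ‖ ^ 2
        ≤ ∑ ik : Fin (N + 1) × κ, (2 * c ^ 2 * ‖dmap w ((g ik.1 : B) * a ik.2) ζ‖ ^ 2 +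
            2 * c ^ 2 * ε ^ 2 * ‖w (a ik.2) ζ‖ ^ 2) :=
          Finset.sum_le_sum fun ik _ => hle ik
      _ = 2 * c ^ 2 * (∑ ik : Fin (N + 1) × κ, ‖dmap w ((g ik.1 : B) * a ik.2) ζ‖ ^ 2) +
            2 * c ^ 2 * ε ^ 2 * (((N : ℝ) + 1) * ∑ k, ‖w (a k) ζ‖ ^ 2) := by
          rw [Finset.sum_add_distrib, Finset.mul_sum, dsum_const N (fun k => ‖w (a k) ζ‖ ^ 2),
            Finset.mul_sum]
      _ ≤ 2 * c ^ 2 * (3 * (ε * ‖ζ‖) ^ 2 *
            (((N : ℝ) + 1) * (2 * ‖∑ k, star (a k) * a k‖ + e))) +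
            2 * c ^ 2 * ε ^ 2 * (((N : ℝ) + 1) *
              (6 * c ^ 2 * c ^ 2 * ‖∑ k, star (a k) * a k‖ * ‖ζ‖ ^ 2)) := by gcongr
      _ = _ := by ring
  exact le_of_mul_le_mul_left hfin hN

theorem prove2_ecol (h1 : St_gt.{u, v}) (h2 : T2_col.{u, v}) : T2_ecol.{u, v} := by
  intro B _ _ _ K _ _ _ w τ hw hτ hdix c ε hc hc1 hε hwb hEb κ _ a
  have key : ∀ (a : κ → B) (ζ : K), ∑ k, ‖dmap w (a k) ζ‖ ^ 2 ≤
        36 * ε ^ 2 * ‖∑ k, star (a k) * a k‖ * ‖ζ‖ ^ 2 := by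
    intro a ζ
    have h3 : ∑ k, ‖dmap w (a k) ζ‖ ^ 2 ≤
        (12 * c ^ 2 + 12 * c ^ 6) * (ε ^ 2 * ‖∑ k, star (a k) * a k‖ * ‖ζ‖ ^ 2) := by
      refine le_of_forall_eps (z := 2 * c ^ 2 * (3 * (ε * ‖ζ‖) ^ 2)) (by positivity)
        fun e he => ?_
      refine (ecol_aux h1 h2 B K w τ hw hτ hdix c ε hc hε hwb hEb κ a ζ e he).trans
        (le_of_eq ?_)
      ring
    refine h3.trans ?_
    have h4 : 12 * c ^ 2 + 12 * c ^ 6 ≤ 36 := by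
      have h5 : c ^ 2 ≤ (11 / 10) ^ 2 := by gcongr
      have h6 : c ^ 6 ≤ (11 / 10) ^ 6 := by gcongr
      norm_num at h5 h6
      linarith
    calc (12 * c ^ 2 + 12 * c ^ 6) * (ε ^ 2 * ‖∑ k, star (a k) * a k‖ * ‖ζ‖ ^ 2)
        ≤ 36 * (ε ^ 2 * ‖∑ k, star (a k) * a k‖ * ‖ζ‖ ^ 2) := by gcongr
      _ = _ := by ring
  refine ⟨key a, fun ξ => ?_⟩
  refine row_of_col (fun b => dmap w b) (fun b => - dmap w b) (fun b => star_dmap w b) _
    (by positivity) κ a (fun ζ => ?_) ξ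
  have := key (fun k => star (a k)) ζ
  simpa only [star_star, neg_apply, norm_neg] using this

end H759R2.Kad
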